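import Pool.Agent.H37.SB.Targets

/-!
# MP_22a11a_co, row BAL: balanced colourings
-/

set_option autoImplicit false

namespace Pool.Agent.H94.SB

open Finset Pool.Agent.H36Sq Pool.Agent.H37.SB

theorem pf_BAL : T_BAL := by
  intro α _ R n hn hnR
  have hlt : ∀ i : ℕ, i % n < n := fun i => Nat.mod_lt i hn
  let e := R.equivFin
  let idx : α → ℕ := fun a => if h : a ∈ R then (e ⟨a, h⟩ : ℕ) else 0
  have hidx : ∀ a, ∀ h : a ∈ R, idx a = (e ⟨a, h⟩ : ℕ) := by
    intro a h
    simp only [idx, dif_pos h]
  refine ⟨fun a => ⟨idx a % n, hlt _⟩, fun u => ?_⟩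
  have hcard : (R.filter (fun a => (⟨idx a % n, hlt _⟩ : Fin n) = u)).card ≤
      (range (R.card / n + 1)).card := by
    refine card_le_card_of_injOn (fun a => idx a / n) ?_ ?_
    · intro a ha
      rw [mem_coe, mem_filter] at ha
      rw [mem_coe, mem_range]
      have h1 : idx a < R.card := by
        rw [hidx a ha.1]
        exact (e ⟨a, ha.1⟩).2
      exact Nat.lt_succ_of_le (Nat.div_le_div_right h1.le)
    · intro a ha a' ha' h
      rw [mem_coe, mem_filter] at ha ha'
      have e1 : idx a % n = (u : ℕ) := congrArg Fin.val ha.2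
      have e2 : idx a' % n = (u : ℕ) := congrArg Fin.val ha'.2
      have h' : idx a / n = idx a' / n := h
      have e3 : idx a = idx a' := by
        rw [← Nat.div_add_mod (idx a) n, ← Nat.div_add_mod (idx a') n, h', e1, e2]
      rw [hidx a ha.1, hidx a' ha'.1] at e3
      have e4 := e.injective (Fin.ext e3)
      exact congrArg Subtype.val e4
  rw [card_range] at hcard
  have h1 : n * (R.card / n + 1) ≤ R.card + n := by
    rw [mul_add, mul_one]
    exact Nat.add_le_add_right (Nat.mul_div_le _ _) _
  have h2 := Nat.mul_le_mul_left n hcard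
  refine h2.trans (h1.trans ?_)
  omega

end Pool.Agent.H94.SB
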